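import Pool.Agent.W555.EQ.Stm

/-! EQ-OPENB: openness at isolated points without the hypothesis on the Jacobian. -/

set_option autoImplicit false

namespace Pool.Agent.W451.EQ

open Pool.Agent.W555.EQ MvPolynomial

/-- The map with one more variable. -/
noncomputable def F {I : Type} (f : I → MvPolynomial I ℂ) : Option I → MvPolynomial (Option I) ℂ
  | none => X none
  | some i => rename some (f i) + X none * X (some i)

theorem pm_F_none {I : Type} (f : I → MvPolynomial I ℂ) (w : Option I → ℂ) :
    pm (F f) w none = w none := by
  simp [pm, F]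

theorem pm_F_some {I : Type} (f : I → MvPolynomial I ℂ) (w : Option I → ℂ) (i : I) :
    pm (F f) w (some i) = pm f (fun j => w (some j)) i + w none * w (some i) := by
  simp only [pm, F, map_add, map_mul, eval_X, eval_rename]
  rfl

theorem jac_F_ne {I : Type} [Fintype I] [DecidableEq I] (f : I → MvPolynomial I ℂ) :
    jac (F f) ≠ 0 := by
  -- a point with nonzero value
  let A : Matrix I I ℂ := Matrix.of fun i j => eval (fun _ => (0 : ℂ)) (pderiv j (f i))
  obtain ⟨t, ht⟩ : ∃ t : ℂ, (Matrix.charpoly (-A)).eval t ≠ 0 := by
    by_contra hc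
    push Not at hc
    have h1 : Matrix.charpoly (-A) = 0 := Polynomial.funext (fun t => by rw [hc t]; simp)
    exact (Matrix.charpoly_monic (-A)).ne_zero h1
  rw [Matrix.eval_charpoly, sub_neg_eq_add] at ht
  let w : Option I → ℂ := fun o => if o = none then t else 0
  intro h0
  have h1 : eval w (jac (F f)) = 0 := by rw [h0]; simp
  unfold jac at h1
  rw [RingHom.map_det] at h1
  obtain ⟨v, hv, hMv⟩ := Matrix.exists_mulVec_eq_zero_iff.2 h1
  have hrow : ∀ o, ∑ o', eval w (pderiv o' (F f o)) * v o' = 0 := by
    intro o
    have := congrFun hMv o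
    simpa [Matrix.mulVec, dotProduct] using this
  have hnone : v none = 0 := by
    have := hrow none
    simp only [F, pderiv_X] at this
    rw [Fintype.sum_option] at this
    simpa using this
  apply hv
  have hsome : (Matrix.scalar I t + A).mulVec (fun i => v (some i)) = 0 := by
    ext i
    have := hrow (some i)
    rw [Fintype.sum_option, hnone, mul_zero, zero_add] at this
    rw [Pi.zero_apply, ← this]
    simp only [Matrix.mulVec, dotProduct]
    apply Finset.sum_congr rfl
    intro j _
    congr 1
    have e1 : pderiv (some j) (F f (some i)) = rename some (pderiv j (f i))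
        + X none * (if j = i then 1 else 0) := by
      simp only [F, map_add, Derivation.leibniz, pderiv_X, smul_eq_mul]
      rw [pderiv_rename (Option.some_injective I)]
      by_cases hij : j = i
      · subst hij; simp
      · simp [hij, Pi.single_apply, Ne.symm hij]
    rw [e1, map_add, map_mul, eval_rename, eval_X]
    have e2 : w ∘ some = fun _ => (0 : ℂ) := by
      ext k; simp [w]
    rw [e2]
    have e3 : w none = t := by simp [w]
    rw [e3]
    by_cases hij : i = j
    · subst hij
      simp [A, add_comm]
    · simp [A, hij, Ne.symm hij, Matrix.scalar_apply]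
  have hz : (fun i => v (some i)) = 0 := by
    by_contra hne
    exact ht (Matrix.exists_mulVec_eq_zero_iff.1 ⟨_, hne, hsome⟩)
  ext o
  rcases o with _ | i
  · exact hnone
  · exact congrFun hz i

theorem dist_option {I : Type} [Fintype I] (a b : Option I → ℂ) :
    dist (fun i => a (some i)) (fun i => b (some i)) ≤ dist a b := by
  rw [dist_pi_le_iff dist_nonneg]
  intro i
  exact dist_le_pi_dist a b (some i)

theorem openB (ha : StOpenA) : StOpenB := by
  intro I _ _ f y0 ρ hρ hiso ε hε
  let w0 : Option I → ℂ := fun o => o.elim 0 y0
  have hiso' : ∀ w, dist w w0 < ρ → pm (F f) w = pm (F f) w0 → w = w0 := by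
    intro w hw he
    have h1 : w none = 0 := by
      have := congrFun he none
      rw [pm_F_none, pm_F_none] at this
      exact this
    have h2 : pm f (fun j => w (some j)) = pm f y0 := by
      ext i
      have := congrFun he (some i)
      rw [pm_F_some, pm_F_some, h1] at this
      simpa [w0] using this
    have h3 : dist (fun j => w (some j)) y0 < ρ :=
      lt_of_le_of_lt (dist_option w w0) hw
    have h4 := hiso _ h3 h2
    ext o
    rcases o with _ | i
    · exact h1
    · exact congrFun h4 i
  obtain ⟨δ, hδ, hopen⟩ := ha (Option I) (F f) (jac_F_ne f) w0 ρ hρ hiso' ε hε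
  refine ⟨δ, hδ, ?_⟩
  intro z hz
  have h5 : dist (fun o : Option I => o.elim 0 z) (pm (F f) w0) < δ := by
    rw [dist_pi_lt_iff hδ]
    intro o
    rcases o with _ | i
    · rw [pm_F_none]; simpa [w0] using hδ
    · rw [pm_F_some]
      have : pm f (fun j => w0 (some j)) i + w0 none * w0 (some i) = pm f y0 i := by
        simp [w0]
      rw [this]
      exact (dist_pi_lt_iff hδ).1 hz i
  obtain ⟨w, hw, hwz⟩ := hopen _ h5
  have h6 : w none = 0 := by
    have := congrFun hwz none
    rw [pm_F_none] at this
    exact this
  refine ⟨fun i => w (some i), lt_of_le_of_lt (dist_option w w0) hw, ?_⟩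
  ext i
  have := congrFun hwz (some i)
  rw [pm_F_some, h6, zero_mul, add_zero] at this
  exact this

end Pool.Agent.W451.EQ
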